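import Pool.Agent.N236.UB.Stm

/-!
# UB/DD: divided differences
-/

set_option autoImplicit false

open Polynomial

namespace Pool.Agent.N374.UBDD

open Pool.Agent.N236.UB

variable {L : Type} [Field L]

lemma vsum (v : AbsoluteValue L ℝ) (h : ∀ x y : L, v (x + y) ≤ max (v x) (v y))
    {ι : Type} (s : Finset ι) (f : ι → L) (r : ℝ) (hr : 0 ≤ r) (hf : ∀ i ∈ s, v (f i) ≤ r) :
    v (∑ i ∈ s, f i) ≤ r := by
  classical
  induction s using Finset.induction_on with
  | empty => simpa using hr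
  | insert a s ha ih =>
    rw [Finset.sum_insert ha]
    refine (h _ _).trans (max_le (hf _ (Finset.mem_insert_self _ _)) (ih fun i hi => hf i ?_))
    exact Finset.mem_insert_of_mem hi

lemma vpow (v : AbsoluteValue L ℝ) {x : L} (hx : v x ≤ 1) (j : ℕ) : v (x ^ j) ≤ 1 := by
  rw [map_pow]
  exact pow_le_one₀ (v.nonneg x) hx

lemma vmul (v : AbsoluteValue L ℝ) {x y : L} (hx : v x ≤ 1) (hy : v y ≤ 1) : v (x * y) ≤ 1 := by
  rw [map_mul]
  exact mul_le_one₀ hx (v.nonneg y) hy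

lemma vpowsub (v : AbsoluteValue L ℝ) (h : ∀ x y : L, v (x + y) ≤ max (v x) (v y))
    {x x' : L} (hx : v x ≤ 1) (hx' : v x' ≤ 1) (j : ℕ) : v (x ^ j - x' ^ j) ≤ v (x - x') := by
  rw [← geom_sum₂_mul, map_mul]
  refine mul_le_of_le_one_left (v.nonneg _) ?_
  exact vsum v h _ _ 1 zero_le_one fun i _ => vmul v (vpow v hx _) (vpow v hx' _)

theorem t_dd : S_DD := by
  intro L _ v p q e hL G
  obtain ⟨h, -⟩ := hL
  refine ⟨fun x y => ?_, fun hG => ⟨fun x y hx hy => ?_, fun x y x' y' hx hy hx' hy' => ?_⟩⟩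
  · rw [eval_eq_sum, eval_eq_sum, sum_def, sum_def, ← Finset.sum_sub_distrib, dd, Finset.sum_mul]
    refine Finset.sum_congr rfl fun i _ => ?_
    rw [mul_assoc, geom_sum₂_mul]
    ring
  · rw [dd]
    refine vsum v h _ _ 1 zero_le_one fun i _ => vmul v (hG i) ?_
    exact vsum v h _ _ 1 zero_le_one fun j _ => vmul v (vpow v hx _) (vpow v hy _)
  · rw [dd, dd, ← Finset.sum_sub_distrib]
    have h0 : 0 ≤ max (v (x - x')) (v (y - y')) := le_max_of_le_left (v.nonneg _)
    refine vsum v h _ _ _ h0 fun i _ => ?_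
    rw [← mul_sub, map_mul]
    refine (mul_le_of_le_one_left (v.nonneg _) (hG i)).trans ?_
    rw [← Finset.sum_sub_distrib]
    refine vsum v h _ _ _ h0 fun j _ => ?_
    have e : x ^ j * y ^ (i - 1 - j) - x' ^ j * y' ^ (i - 1 - j) =
        (x ^ j - x' ^ j) * y ^ (i - 1 - j) + x' ^ j * (y ^ (i - 1 - j) - y' ^ (i - 1 - j)) := by
      ring
    rw [e]
    refine (h _ _).trans (max_le_max ?_ ?_)
    · rw [map_mul]
      exact (mul_le_of_le_one_right (v.nonneg _) (vpow v hy _)).trans (vpowsub v h hx hx' _)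
    · rw [map_mul]
      exact (mul_le_of_le_one_left (v.nonneg _) (vpow v hx' _)).trans (vpowsub v h hy hy' _)

end Pool.Agent.N374.UBDD
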