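import Pool.Agent.N374.UB.INT

/-!
# UB/FIX: number of periodic sequences
-/

set_option autoImplicit false

open Polynomial

namespace Pool.Agent.N374.UBFIX

open Pool.Agent.N236.UB Pool.Agent.N374.UBINT

section

variable {R : Type} [Field R] {N : ℕ} (Z : Finset (ℤ → R))

/-- coordinate functions -/
def xc (n : ℤ) : Z → R := fun z => z.1 n

/-- monomials -/
noncomputable def mon (m : Fin N → ℕ) : Z → R := ∏ i : Fin N, xc Z ((i : ℕ) : ℤ) ^ m i

lemma mon_add (m m' : Fin N → ℕ) : mon Z (m + m') = mon Z m * mon Z m' := by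
  unfold mon
  rw [← Finset.prod_mul_distrib]
  refine Finset.prod_congr rfl fun i _ => ?_
  rw [Pi.add_apply, pow_add]

lemma mon_single (i : Fin N) (k : ℕ) : mon Z (Pi.single i k) = xc Z ((i : ℕ) : ℤ) ^ k := by
  unfold mon
  rw [Finset.prod_eq_single i]
  · simp
  · intro j _ hj
    rw [Pi.single_eq_of_ne hj, pow_zero]
  · intro h
    exact absurd (Finset.mem_univ i) h

lemma xc_idx (hN : 1 ≤ N) (hZ : ∀ z ∈ Z, Per z N) (n : ℤ) :
    ∃ i : Fin N, xc Z n = xc Z ((i : ℕ) : ℤ) := by
  have hNz : (0 : ℤ) < (N : ℤ) := by exact_mod_cast hN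
  have hn0 : 0 ≤ n % N := Int.emod_nonneg _ hNz.ne'
  have hn1 : n % N < N := Int.emod_lt_of_pos _ hNz
  obtain ⟨m, hm⟩ := Int.eq_ofNat_of_zero_le hn0
  refine ⟨⟨m, by rw [hm] at hn1; exact_mod_cast hn1⟩, ?_⟩
  funext z
  show z.1 n = z.1 (m : ℤ)
  rw [per_mod (hZ z.1 z.2) n, hm]

/-- the span of the monomials with small exponents -/
noncomputable def SS (N d : ℕ) : Submodule R (Z → R) :=
  Submodule.span R (Set.range fun m : Fin N → Fin d => mon Z (fun i => (m i : ℕ)))

lemma mon_mem (hN : 1 ≤ N) (F : R[X]) (δ : R) (hF : 2 ≤ F.natDegree)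
    (hZ : ∀ z ∈ Z, Per z N) (hR : ∀ z ∈ Z, Rec F δ z) :
    ∀ n : ℕ, ∀ m : Fin N → ℕ, ∑ i, m i = n → mon Z m ∈ SS Z N F.natDegree := by
  intro n
  induction n using Nat.strong_induction_on with
  | _ n ih =>
    intro m hm
    by_cases hall : ∀ i, m i < F.natDegree
    · exact Submodule.subset_span ⟨fun i => ⟨m i, hall i⟩, rfl⟩
    · push Not at hall
      obtain ⟨i, hi⟩ := hall
      set d := F.natDegree with hd
      -- the remaining monomial
      obtain ⟨m', hm'⟩ : ∃ m' : Fin N → ℕ, m = m' + Pi.single i d := by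
        refine ⟨m - Pi.single i d, ?_⟩
        funext j
        by_cases hj : j = i
        · subst hj
          simp only [Pi.add_apply, Pi.sub_apply, Pi.single_eq_same]
          omega
        · simp only [Pi.add_apply, Pi.sub_apply, Pi.single_eq_of_ne hj]
          omega
      have hsum : ∑ j, m' j + d = n := by
        rw [← hm, hm']
        simp [Finset.sum_add_distrib, Finset.sum_pi_single']
      have hF0 : F ≠ 0 := by
        intro h0
        rw [h0] at hd
        simp at hd
        omega
      have hlc : F.leadingCoeff ≠ 0 := leadingCoeff_ne_zero.2 hF0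
      -- relation
      have hrel : xc Z ((i : ℕ) : ℤ) ^ d = F.leadingCoeff⁻¹ • (xc Z (((i : ℕ) : ℤ) + 1) +
          δ • xc Z (((i : ℕ) : ℤ) - 1) -
          ∑ j ∈ Finset.range d, F.coeff j • xc Z ((i : ℕ) : ℤ) ^ j) := by
        funext z
        have h1 := hR z.1 z.2 ((i : ℕ) : ℤ)
        rw [eval_eq_sum_range, Finset.sum_range_succ] at h1
        simp only [Pi.pow_apply, Pi.smul_apply, Pi.sub_apply, Pi.add_apply, Finset.sum_apply,
          smul_eq_mul, xc]
        rw [h1]
        simp only [← hd]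
        rw [show F.coeff d = F.leadingCoeff from rfl]
        field_simp
        ring
      rw [hm', mon_add, mon_single, hrel, mul_smul_comm]
      refine Submodule.smul_mem _ _ ?_
      rw [mul_sub, mul_add]
      have hx : ∀ k : ℤ, mon Z m' * xc Z k ∈ SS Z N d := by
        intro k
        obtain ⟨i', hi'⟩ := xc_idx Z hN hZ k
        rw [hi', ← pow_one (xc Z ((i' : ℕ) : ℤ)), ← mon_single Z i' 1, ← mon_add]
        refine ih (∑ j, m' j + 1) (by omega) _ ?_
        simp [Finset.sum_add_distrib]
      refine Submodule.sub_mem _ (Submodule.add_mem _ (hx _) ?_) ?_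
      · rw [mul_smul_comm]
        exact Submodule.smul_mem _ _ (hx _)
      · rw [Finset.mul_sum]
        refine Submodule.sum_mem _ fun j hj => ?_
        rw [mul_smul_comm]
        refine Submodule.smul_mem _ _ ?_
        rw [← mon_single Z i j, ← mon_add]
        have := Finset.mem_range.1 hj
        refine ih (∑ j, m' j + j) (by omega) _ ?_
        simp [Finset.sum_add_distrib]

lemma top_le (hN : 1 ≤ N) (F : R[X]) (δ : R) (hF : 2 ≤ F.natDegree)
    (hZ : ∀ z ∈ Z, Per z N) (hR : ∀ z ∈ Z, Rec F δ z) :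
    SS Z N F.natDegree = ⊤ := by
  classical
  -- the span of all monomials is a subalgebra
  have hmul : ∀ f g : Z → R, f ∈ Submodule.span R (Set.range (mon Z (N := N))) →
      g ∈ Submodule.span R (Set.range (mon Z (N := N))) →
      f * g ∈ Submodule.span R (Set.range (mon Z (N := N))) := by
    intro f g hf hg
    have h1 := Submodule.mul_mem_mul hf hg
    rw [Submodule.span_mul_span] at h1
    refine Submodule.span_mono ?_ h1
    rintro _ ⟨_, ⟨m, rfl⟩, _, ⟨m', rfl⟩, rfl⟩
    exact ⟨m + m', mon_add Z m m'⟩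
  have hone : (1 : Z → R) ∈ Submodule.span R (Set.range (mon Z (N := N))) := by
    refine Submodule.subset_span ⟨0, ?_⟩
    simp [mon]
  have hx : ∀ k : ℤ, xc Z k ∈ Submodule.span R (Set.range (mon Z (N := N))) := by
    intro k
    obtain ⟨i', hi'⟩ := xc_idx Z hN hZ k
    rw [hi', ← pow_one (xc Z ((i' : ℕ) : ℤ)), ← mon_single Z i' 1]
    exact Submodule.subset_span ⟨_, rfl⟩
  have hprod : ∀ (s : Finset Z) (f : Z → (Z → R)),
      (∀ w ∈ s, f w ∈ Submodule.span R (Set.range (mon Z (N := N)))) →
      ∏ w ∈ s, f w ∈ Submodule.span R (Set.range (mon Z (N := N))) := by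
    intro s f hf
    induction s using Finset.induction_on with
    | empty => simpa using hone
    | insert a s ha ih =>
      rw [Finset.prod_insert ha]
      exact hmul _ _ (hf _ (Finset.mem_insert_self _ _))
        (ih fun w hw => hf w (Finset.mem_insert_of_mem hw))
  have hsingle : ∀ z : Z, (Pi.single z 1 : Z → R) ∈ Submodule.span R (Set.range (mon Z (N := N))) := by
    intro z
    have hne : ∀ w : Z, w ≠ z → ∃ k : ℤ, z.1 k ≠ w.1 k := by
      intro w hw
      by_contra hcon
      push Not at hcon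
      exact hw (Subtype.ext (funext hcon)).symm
    choose! kk hkk using hne
    have hf : (Pi.single z 1 : Z → R) = ∏ w ∈ Finset.univ.erase z,
        ((z.1 (kk w) - w.1 (kk w))⁻¹ • (xc Z (kk w) - w.1 (kk w) • (1 : Z → R))) := by
      funext u
      rw [Finset.prod_apply]
      by_cases hu : u = z
      · subst hu
        rw [Pi.single_eq_same]
        symm
        refine Finset.prod_eq_one fun w hw => ?_
        have hw' := Finset.ne_of_mem_erase hw
        have h1 := sub_ne_zero.2 (hkk w hw')
        simp only [Pi.smul_apply, Pi.sub_apply, xc, smul_eq_mul, Pi.one_apply, mul_one]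
        exact inv_mul_cancel₀ h1
      · rw [Pi.single_eq_of_ne hu]
        symm
        refine Finset.prod_eq_zero (Finset.mem_erase.2 ⟨hu, Finset.mem_univ u⟩) ?_
        simp [xc]
    rw [hf]
    refine hprod _ _ fun w _ => Submodule.smul_mem _ _ (Submodule.sub_mem _ (hx _) ?_)
    exact Submodule.smul_mem _ _ hone
  rw [eq_top_iff]
  intro f _
  have hf : f = ∑ z : Z, f z • (Pi.single z 1 : Z → R) := by
    funext u
    simp [Finset.sum_apply, Pi.single_apply]
  rw [hf]
  refine Submodule.sum_mem _ fun z _ => Submodule.smul_mem _ _ ?_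
  refine (Submodule.span_le.2 ?_) (hsingle z)
  rintro _ ⟨m, rfl⟩
  exact mon_mem Z hN F δ hF hZ hR _ m rfl

lemma card_le (hN : 1 ≤ N) (F : R[X]) (δ : R) (hF : 2 ≤ F.natDegree)
    (hZ : ∀ z ∈ Z, Per z N) (hR : ∀ z ∈ Z, Rec F δ z) : Z.card ≤ F.natDegree ^ N := by
  have h1 := finrank_range_le_card (R := R)
    (fun m : Fin N → Fin F.natDegree => mon Z (fun i => (m i : ℕ)))
  have h2 : (Set.range fun m : Fin N → Fin F.natDegree => mon Z (fun i => (m i : ℕ))).finrank R =
      Z.card := by
    rw [Set.finrank]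
    have h3 := top_le Z hN F δ hF hZ hR
    rw [SS] at h3
    rw [h3, finrank_top, Module.finrank_fintype_fun_eq_card, Fintype.card_coe]
  rw [h2] at h1
  simpa using h1

end

theorem t_fix : S_FIX := by
  intro R _ F δ N hF hN
  have hfin : {z : ℤ → R | Per z N ∧ Rec F δ z}.Finite := by
    by_contra hinf
    obtain ⟨Z, hZ, hc⟩ := Set.Infinite.exists_subset_card_eq hinf (F.natDegree ^ N + 1)
    have := card_le Z hN F δ hF (fun z hz => (hZ hz).1) (fun z hz => (hZ hz).2)
    omega
  refine ⟨hfin, ?_⟩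
  rw [Set.ncard_eq_toFinset_card _ hfin]
  exact card_le _ hN F δ hF (fun z hz => ((Set.Finite.mem_toFinset hfin).1 hz).1)
    (fun z hz => ((Set.Finite.mem_toFinset hfin).1 hz).2)

end Pool.Agent.N374.UBFIX
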