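import Pool.Agent.N374.UB.DD

/-!
# UB/INT: rescaling periodic sequences
-/

set_option autoImplicit false

open Polynomial

namespace Pool.Agent.N374.UBINT

open Pool.Agent.N236.UB Pool.Agent.N374.UBDD

lemma per_mod {L : Type} {z : ℤ → L} {N : ℕ} (h : Per z N) (n : ℤ) : z n = z (n % N) := by
  have h1 : ∀ k : ℕ, ∀ m : ℤ, z (m + k * N) = z m := by
    intro k
    induction k with
    | zero => intro m; simp
    | succ k ih =>
      intro m
      have : m + ((k + 1 : ℕ) : ℤ) * N = (m + k * N) + N := by push_cast; ring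
      rw [this, h, ih]
  have h2 : ∀ k : ℤ, ∀ m : ℤ, z (m + k * N) = z m := by
    intro k m
    rcases Int.eq_nat_or_neg k with ⟨j, rfl | rfl⟩
    · exact h1 j m
    · rw [← h1 j (m + -(j : ℤ) * N)]
      congr 1
      ring
  have h3 := h2 (n / N) (n % N)
  rw [← h3]
  congr 1
  rw [mul_comm]
  exact (Int.emod_add_mul_ediv n N).symm

theorem t_int : S_INT := by
  intro L _ v p q e hL F δ hS hδ z N hN hP hR
  obtain ⟨h, -⟩ := hL
  have hNz : (0 : ℤ) < (N : ℤ) := by exact_mod_cast hN
  -- the maximal jump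
  obtain ⟨a, ha, hmax⟩ := Finset.exists_max_image (Finset.range N)
    (fun n => v (z ((n : ℤ) + 1) - z n)) ⟨0, Finset.mem_range.2 hN⟩
  have hper1 : ∀ n : ℤ, z (n + 1) = z (n % N + 1) := by
    intro n
    rw [per_mod hP (n + 1), per_mod hP (n % N + 1), Int.emod_add_emod]
  have hjump : ∀ n : ℤ, v (z (n + 1) - z n) ≤ v (z ((a : ℤ) + 1) - z a) := by
    intro n
    rw [hper1 n, per_mod hP n]
    have hn0 : 0 ≤ n % N := Int.emod_nonneg _ hNz.ne'
    have hn1 : n % N < N := Int.emod_lt_of_pos _ hNz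
    obtain ⟨m, hm⟩ := Int.eq_ofNat_of_zero_le hn0
    rw [hm]
    refine hmax m (Finset.mem_range.2 ?_)
    rw [hm] at hn1
    exact_mod_cast hn1
  set E := v (z ((a : ℤ) + 1) - z a) with hE
  by_cases hE0 : E = 0
  · left
    intro n
    have h1 := hjump n
    rw [hE0] at h1
    have h2 : v (z (n + 1) - z n) = 0 := le_antisymm h1 (v.nonneg _)
    rw [AbsoluteValue.eq_zero] at h2
    exact sub_eq_zero.1 h2
  right
  have hEpos : 0 < E := lt_of_le_of_ne (v.nonneg _) (Ne.symm hE0)
  set c := z a with hc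
  set s := z ((a : ℤ) + 1) - z a with hs
  have hs0 : s ≠ 0 := by
    intro h0
    apply hE0
    rw [hE, h0, map_zero]
  -- all values near c
  have hnear_nat : ∀ k : ℕ, ∀ m : ℤ, v (z (m + k) - z m) ≤ E := by
    intro k
    induction k with
    | zero => intro m; simpa using hEpos.le
    | succ k ih =>
      intro m
      have e1 : z (m + ((k + 1 : ℕ) : ℤ)) - z m = (z (m + k + 1) - z (m + k)) + (z (m + k) - z m) := by
        push_cast
        rw [add_assoc]
        ring
      rw [e1]
      exact (h _ _).trans (max_le (hjump _) (ih m))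
  have hnear : ∀ n : ℤ, v (z n - c) ≤ E := by
    intro n
    rcases le_total (a : ℤ) n with h1 | h1
    · obtain ⟨k, hk⟩ := Int.eq_ofNat_of_zero_le (sub_nonneg.2 h1)
      have := hnear_nat k a
      rwa [← hk, add_sub_cancel] at this
    · obtain ⟨k, hk⟩ := Int.eq_ofNat_of_zero_le (sub_nonneg.2 h1)
      have := hnear_nat k n
      rw [← hk, add_sub_cancel] at this
      rw [← v.map_neg, neg_sub]
      exact this
  have hmulδ : ∀ x : L, v (δ * x) ≤ v x := by
    intro x
    rw [map_mul]
    exact mul_le_of_le_one_left (v.nonneg _) hδ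
  refine ⟨c, s, C (1 / s) * ((taylor c F).comp (C s * X) - C (c + δ * c)), hs0, ?_, ?_, ?_⟩
  · intro i
    have hcomp : ((taylor c F).comp (C s * X)).coeff i = (taylor c F).coeff i * s ^ i := by
      rw [comp_C_mul_X_coeff]
    rw [coeff_C_mul, coeff_sub, hcomp, map_mul]
    have hvs : v (1 / s) = 1 / E := by
      rw [map_div₀, map_one, hE]
    rw [hvs]
    rcases Nat.eq_zero_or_pos i with rfl | hi
    · rw [coeff_C_zero, pow_zero, mul_one, taylor_coeff_zero]
      have h1 := hR a
      have h2 : eval c F - (c + δ * c) = (z ((a : ℤ) + 1) - c) + δ * (z ((a : ℤ) - 1) - c) := by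
        rw [hc, ← h1]; ring
      rw [h2]
      have h3 : v ((z ((a : ℤ) + 1) - c) + δ * (z ((a : ℤ) - 1) - c)) ≤ E :=
        (h _ _).trans (max_le (hnear _) ((hmulδ _).trans (hnear _)))
      rw [one_div, inv_mul_le_iff₀ hEpos, mul_one]
      exact h3
    · rw [coeff_C, if_neg hi.ne', sub_zero, map_mul, map_pow]
      have h1 := hS (z a) (z ((a : ℤ) + 1)) i hi
      have h2 : eval (z ((a : ℤ) + 1)) F - eval (z a) F =
          (z ((a : ℤ) + 1 + 1) - z ((a : ℤ) + 1)) + δ * (z ((a : ℤ) + 1 - 1) - z ((a : ℤ) - 1)) := by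
        rw [← hR ((a : ℤ) + 1), ← hR a]; ring
      have h3 : v (eval (z ((a : ℤ) + 1)) F - eval (z a) F) ≤ E := by
        rw [h2]
        refine (h _ _).trans (max_le (hjump _) ((hmulδ _).trans ?_))
        have := hjump ((a : ℤ) - 1)
        rw [sub_add_cancel] at this
        rw [add_sub_cancel_right]
        exact this
      rw [one_div, inv_mul_le_iff₀ hEpos, mul_one]
      exact h1.trans h3
  · intro n
    rw [map_div₀, div_le_one (by rw [← hE]; exact hEpos)]
    exact hnear n
  · intro n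
    have h1 : eval ((z n - c) / s) (C (1 / s) * ((taylor c F).comp (C s * X) - C (c + δ * c))) =
        (eval (z n) F - (c + δ * c)) / s := by
      rw [eval_mul, eval_C, eval_sub, eval_comp, eval_mul, eval_C, eval_X, eval_C,
        mul_div_cancel₀ _ hs0, taylor_eval, sub_add_cancel]
      ring
    show (z (n + 1) - c) / s + δ * ((z (n - 1) - c) / s) = _
    rw [h1, ← hR n]
    ring

end Pool.Agent.N374.UBINT
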